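import Pool.Agent.MP_c1891a_nt.G43.Bas
import Pool.Agent.MP_c1891a_nt.H85.Arith

/-
The logarithmic mass of the conjugates is small unless one value is very small.
-/

namespace Pool.Agent.MP_c1891a_nt.G43

open Finset Module H43 Filter

theorem mass_grp {Γ Γ' : Type} [Group Γ] [Group Γ'] [Fintype Γ] [Fintype Γ'] (f : Γ →* Γ')
    (hf : Function.Surjective f) (G : Γ' → ℝ) :
    (Fintype.card Γ' : ℝ) * ∑ u, G (f u) = Fintype.card Γ * ∑ v, G v := by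
  have h1 : ∀ v : Γ', ∑ u, G (f u * v) = ∑ u, G (f u) := fun v => by
    obtain ⟨s, rfl⟩ := hf v
    simp only [← map_mul]
    exact Equiv.sum_comp (Equiv.mulRight s) fun u => G (f u)
  have h2 : ∀ u : Γ, ∑ v, G (f u * v) = ∑ v, G v := fun u =>
    Equiv.sum_comp (Equiv.mulLeft (f u)) G
  calc _ = ∑ v : Γ', ∑ u, G (f u * v) := by simp [h1]
    _ = _ := by rw [sum_comm]; simp [h2]

theorem mass_cop (N : ℕ) [NeZero N] (g : ℕ → ℝ) :
    ∑ j ∈ Cop N, g j = ∑ u : (ZMod N)ˣ, g (u : ZMod N).val := by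
  symm
  refine sum_bij (fun u _ => (u : ZMod N).val) (fun u _ => mem_filter.2
    ⟨mem_range.2 (ZMod.val_lt _), ZMod.val_coe_unit_coprime u⟩)
    (fun u _ v _ h => Units.ext (ZMod.val_injective N h)) (fun j hj => ?_) fun _ _ => rfl
  obtain ⟨h1, h2⟩ := mem_filter.1 hj
  exact ⟨ZMod.unitOfCoprime j h2, mem_univ _, by
    rw [ZMod.coe_unitOfCoprime, ZMod.val_natCast, Nat.mod_eq_of_lt (mem_range.1 h1)]⟩

theorem mass_fib {X : Type} [Monoid X] (ψ : X) {N : ℕ} (hN : 0 < N) (h : orderOf ψ ∣ N)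
    (G : X → ℝ) : ((orderOf ψ).totient : ℝ) * ∑ j ∈ Cop N, G (ψ ^ j) =
      N.totient * ∑ j ∈ Cop (orderOf ψ), G (ψ ^ j) := by
  haveI : NeZero N := ⟨hN.ne'⟩
  haveI : NeZero (orderOf ψ) := ⟨(Nat.pos_of_dvd_of_pos h hN).ne'⟩
  rw [mass_cop, mass_cop, ← ZMod.card_units_eq_totient, ← ZMod.card_units_eq_totient,
    ← mass_grp (ZMod.unitsMap h) (ZMod.unitsMap_surjective h)
      fun v => G (ψ ^ (v : ZMod (orderOf ψ)).val)]
  refine congrArg _ (sum_congr rfl fun u _ => ?_)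
  rw [ZMod.unitsMap_val, ← ZMod.natCast_val, ZMod.val_natCast, pow_mod_orderOf]

/-- one term of the mass. -/
noncomputable def massT (r t : ℝ) : ℝ := Real.log (max r t) - Real.log r

theorem massT_eq {r : ℝ} (hr : 0 < r) (t : ℝ) : massT r t = Real.log (max 1 (t / r)) := by
  rw [massT, ← Real.log_div (lt_max_of_lt_left hr).ne' hr.ne', ← max_div_div_right hr.le,
    div_self hr.ne']

theorem massT_nonneg {r : ℝ} (hr : 0 < r) (t : ℝ) : 0 ≤ massT r t := by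
  rw [massT_eq hr]; exact Real.log_nonneg (le_max_left _ _)

theorem massT_le {r r' t t' : ℝ} (hr : 0 < r) (hr' : 0 < r') (h : t / r ≤ t' / r') :
    massT r t ≤ massT r' t' := by
  rw [massT_eq hr, massT_eq hr']
  exact Real.log_le_log (lt_max_of_lt_left one_pos) (max_le_max le_rfl h)

theorem massT_core {r t s : ℝ} (hs : 0 ≤ s) (hr : Real.exp (-s) ≤ r) (ht : t ≤ 1) :
    massT r t ≤ s := by
  have h0 : 0 < r := (Real.exp_pos _).trans_le hr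
  rw [massT_eq h0, Real.log_le_iff_le_exp (lt_max_of_lt_left one_pos)]
  refine max_le (Real.one_le_exp hs) ((div_le_iff₀ h0).2 (ht.trans ?_))
  have := mul_le_mul_of_nonneg_left hr (Real.exp_pos s).le
  rwa [← Real.exp_add, add_neg_cancel, Real.exp_zero] at this

theorem mass_ord {Λ : Type} [AddCommGroup Λ] {χ : AddChar Λ ℂ} {j : ℕ}
    (hj : j ∈ Cop (orderOf χ)) : orderOf (χ ^ j) = orderOf χ :=
  (mem_filter.1 hj).2.symm.orderOf_pow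

theorem mass_triv {Λ : Type} [AddCommGroup Λ] [Subsingleton Λ] (S : Sys Λ) :
    ∃ A : ℕ, ∀ χ : AddChar Λ ℂ, S.ρ χ ≠ 0 → S.ms χ A ≤ 0 := by
  have h1 : ∀ χ : AddChar Λ ℂ, χ = 1 := fun χ => by
    ext l; rw [Subsingleton.elim l 0, χ.map_zero_eq_one, AddChar.one_apply]
  by_cases h : S.ρ 1 = 0
  · exact ⟨0, fun χ hχ => absurd (h1 χ ▸ h) hχ⟩
  have h0 : 0 < S.ρ 1 := (S.ρ_nonneg 1).lt_of_ne' h
  obtain ⟨A, hA⟩ := pow_unbounded_of_one_lt (S.ρ 1)⁻¹ (one_lt_two (α := ℝ))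
  refine ⟨A, fun χ _ => sum_nonpos fun j _ => ?_⟩
  rw [h1 χ, one_pow, orderOf_one, Nat.cast_one, one_add_one_eq_two, max_eq_left
    (inv_le_of_inv_le₀ h0 hA.le), sub_self]

/-- the statement for one lattice. -/
def MassAt (Λ : Type) [AddCommGroup Λ] : Prop :=
  ∀ S : Sys Λ, S.Int → (∀ u : Λ →ₗ[ℤ] ℤ, u ≠ 0 → (S.ref u).Good) → ∀ ε ε' : ℝ, 0 < ε → 0 < ε' →
    ∃ (A : ℕ) (T : Finset Λ), ∀ χ : AddChar Λ ℂ, IsOfFinOrder χ → NoRel T χ →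
      (∀ j ∈ Cop (orderOf χ), S.ρ (χ ^ j) ≠ 0) →
      S.ms χ A ≤ ε * (orderOf χ).totient ∨
      ∃ j ∈ Cop (orderOf χ), S.ρ (χ ^ j) ≤ Real.exp (-(orderOf χ : ℝ) ^ (1 - ε'))

/-- the statement in codimension two. -/
def MassG {Λ : Type} [AddCommGroup Λ] (S : Sys Λ) (ε : ℝ) (A : ℕ) (T : Finset Λ) : Prop :=
  ∀ χ : AddChar Λ ℂ, IsOfFinOrder χ → NoRel T χ →
    (∀ j, Nat.Coprime j (orderOf χ) → 0 < S.ρ (χ ^ j)) ∧ S.ms χ A ≤ ε * (orderOf χ).totient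

theorem mass_good (h2 : SExcl) {Λ : Type} [AddCommGroup Λ] [Module.Free ℤ Λ] [Module.Finite ℤ Λ]
    (hM : MassAt Λ) (S : Sys Λ) (hI : S.Int) (hG : S.Good) {ε : ℝ} (hε : 0 < ε) :
    ∃ A T, MassG S ε A T := by
  classical
  obtain ⟨δ, T₁, hδ, h₁⟩ := h2 Λ S hI hG
  have hp : ∀ χ : AddChar Λ ℂ, IsOfFinOrder χ → NoRel T₁ χ → ∀ j, Nat.Coprime j (orderOf χ) →
      Real.exp (-(orderOf χ : ℝ) ^ (1 - δ)) ≤ S.ρ (χ ^ j) := fun χ hχ hT j hj => by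
    have := h₁ _ (hχ.pow (n := j)) (hT.pow hj)
    rwa [hj.symm.orderOf_pow] at this
  rcases subsingleton_or_nontrivial Λ with hΛ | hΛ
  · obtain ⟨A, hA⟩ := mass_triv S
    refine ⟨A, T₁, fun χ hχ hT => ⟨fun j hj => (Real.exp_pos _).trans_le (hp χ hχ hT j hj), ?_⟩⟩
    exact (hA χ ((Real.exp_pos _).trans_le (h₁ χ hχ hT)).ne').trans (by positivity)
  obtain ⟨l, hl⟩ := exists_ne (0 : Λ)
  obtain ⟨A, T₂, h₂⟩ := hM S hI (fun u _ => hG.ref u) ε (δ / 2) hε (half_pos hδ)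
  refine ⟨A, insert ((2 : ℕ).factorial • l) (T₁ ∪ T₂), fun χ hχ hT => ?_⟩
  have t1 := hT.mono (subset_union_left.trans (subset_insert _ _))
  have t2 := hT.mono (subset_union_right.trans (subset_insert _ _))
  have p : ∀ j, Nat.Coprime j (orderOf χ) → 0 < S.ρ (χ ^ j) :=
    fun j hj => (Real.exp_pos _).trans_le (hp χ hχ t1 j hj)
  refine ⟨p, (h₂ χ hχ t2 fun j hj => (p j (mem_filter.1 hj).2).ne').resolve_right ?_⟩
  rintro ⟨j, hj, hs⟩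
  have h3 := Real.exp_le_exp.1 ((hp χ hχ t1 j (mem_filter.1 hj).2).trans hs)
  have h4 : (1 : ℝ) < orderOf χ := by
    exact_mod_cast hT.le_order hχ hl (mem_insert_self _ _)
  have := Real.rpow_lt_rpow_of_exponent_lt h4 (show 1 - δ < 1 - δ / 2 by linarith)
  linarith

theorem mass_big (C : ℕ) {ε e : ℝ} (hε : 0 < ε) (he : 0 < e) : ∃ N₀ : ℕ, ∀ N : ℕ, N₀ ≤ N →
    C * (N : ℝ) ^ (e / 3) * (N : ℝ) ^ (1 - e) ≤ ε * N.totient := by
  obtain ⟨N₁, h₁⟩ := sArith (e / 3) (by positivity)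
  obtain ⟨N₂, h₂⟩ := eventually_atTop.1 (((tendsto_rpow_atTop (show 0 < e / 3 by positivity)).comp
    tendsto_natCast_atTop_atTop).eventually_ge_atTop (C / ε))
  refine ⟨N₁ + N₂ + 1, fun N hN => ?_⟩
  have h0 : (0 : ℝ) < N := by exact_mod_cast (by omega : 0 < N)
  have h3 : (C : ℝ) ≤ ε * (N : ℝ) ^ (e / 3) := (div_le_iff₀' hε).1 (h₂ N (by omega))
  calc _ ≤ ε * (N : ℝ) ^ (e / 3) * (N : ℝ) ^ (e / 3) * (N : ℝ) ^ (1 - e) := by gcongr
    _ = ε * (N : ℝ) ^ (1 - e / 3) := by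
      rw [mul_assoc, mul_assoc, ← Real.rpow_add h0, ← Real.rpow_add h0]
      congr 2; ring
    _ ≤ _ := mul_le_mul_of_nonneg_left (h₁ N (by omega)).1 hε.le

theorem mass_step (h1 : SRel) (h3 : SSat) {Λ : Type} [AddCommGroup Λ] [Module.Free ℤ Λ]
    [Module.Finite ℤ Λ] (ih : ∀ (S : Sys Λ) (W : Submodule ℤ Λ), S.Int → Sat W → W ≠ ⊤ →
      (S.ref W.mkQ).Good → ∀ ε : ℝ, 0 < ε → ∃ A T, MassG (S.res W) ε A T) : MassAt Λ := by
  classical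
  intro S hI hG ε ε' hε hε'
  rcases subsingleton_or_nontrivial Λ with hΛ | hΛ
  · obtain ⟨A, hA⟩ := mass_triv S
    refine ⟨A, ∅, fun χ hχ _ h0 => Or.inl ((hA χ ?_).trans (by positivity))⟩
    have h1 : ∀ χ' : AddChar Λ ℂ, χ' = χ := fun χ' => by
      ext l; rw [Subsingleton.elim l 0, χ.map_zero_eq_one, χ'.map_zero_eq_one]
    have h2 : orderOf χ = 1 := by rw [← h1 1, orderOf_one]
    rw [← h1 (χ ^ 0)]
    exact h0 0 (by rw [h2]; decide)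
  obtain ⟨l, hl⟩ := exists_ne (0 : Λ)
  obtain ⟨⟨𝒲, hS, h𝒲⟩, -⟩ := h3 Λ S.ι S.I S.m
  obtain ⟨𝒱, h𝒱⟩ : ∃ 𝒱 : Finset (Submodule ℤ Λ), ∀ W, W ∈ 𝒱 ↔
      W ∈ 𝒲 ∧ W ≠ ⊤ ∧ (S.ref W.mkQ).Good := ⟨𝒲.filter _, fun _ => mem_filter⟩
  have hε₁ : 0 < ε / 2 / (𝒱.card + 1) := by positivity
  have hex : ∀ W : Submodule ℤ Λ, ∃ A T, W ∈ 𝒱 → MassG (S.res W) (ε / 2 / (𝒱.card + 1)) A T := by
    intro W
    by_cases hW : W ∈ 𝒱
    · obtain ⟨a, b, c⟩ := (h𝒱 W).1 hW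
      obtain ⟨A, T, h⟩ := ih S W hI (hS W a) b c _ hε₁
      exact ⟨A, T, fun _ => h⟩
    · exact ⟨0, ∅, fun h => absurd h hW⟩
  choose AW TW hW using hex
  obtain ⟨Ac, C, hC⟩ := h1 Λ S (ε' / 3) (by positivity)
  obtain ⟨N₀, hN₀⟩ := mass_big C (half_pos hε) hε'
  refine ⟨Ac + 𝒱.sup AW, insert (N₀.factorial • l) (𝒱.biUnion fun W => (TW W).image (↑)),
    fun χ hχ hT h0 => ?_⟩
  obtain ⟨N, hN⟩ : ∃ N, N = orderOf χ := ⟨_, rfl⟩
  have hNp : 0 < N := hN ▸ hχ.orderOf_pos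
  have hN1 : (1 : ℝ) ≤ (N : ℝ) + 1 := le_add_of_nonneg_left N.cast_nonneg
  have hb := hN₀ N (hN ▸ hT.le_order hχ hl (mem_insert_self _ _))
  refine or_iff_not_imp_right.2 fun hsp => ?_
  have hsp' : ∀ j ∈ Cop N, Real.exp (-(N : ℝ) ^ (1 - ε')) ≤ S.ρ (χ ^ j) := fun j hj => by
    subst hN
    exact (not_le.1 fun h => hsp ⟨j, hj, h⟩).le
  have hψ : ∀ W : Submodule ℤ Λ, IsOfFinOrder (rs W χ) := fun W =>
    fin_of_pow hχ.orderOf_pos (orderOf_dvd_iff_pow_eq_one.1 (rs_order W χ))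
  have hg := fun W (h : W ∈ 𝒱) => hW W h (rs W χ) (hψ W) (hT.rs fun a ha =>
    mem_insert_of_mem (mem_biUnion.2 ⟨W, h, mem_image_of_mem _ ha⟩))
  obtain ⟨t, ht⟩ : ∃ t : Submodule ℤ Λ → ℕ → ℝ, ∀ W j, t W j = massT ((S.res W).ρ (rs W χ ^ j))
      (((orderOf (rs W χ) : ℝ) + 1) ^ AW W)⁻¹ := ⟨_, fun _ _ => rfl⟩
  have hpos : ∀ W ∈ 𝒱, ∀ j ∈ Cop N, 0 < (S.res W).ρ (rs W χ ^ j) := fun W h j hj =>
    (hg W h).1 j (Nat.Coprime.coprime_dvd_right (hN ▸ rs_order W χ) (mem_filter.1 hj).2)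
  have ht0 : ∀ W ∈ 𝒱, ∀ j ∈ Cop N, 0 ≤ t W j := fun W h j hj =>
    ht W j ▸ massT_nonneg (hpos W h j hj) _
  have hts : ∀ W ∈ 𝒱, ∑ j ∈ Cop N, t W j ≤ ε / 2 / (𝒱.card + 1) * N.totient := fun W h => by
    have e := mass_fib (rs W χ) hNp (hN ▸ rs_order W χ) fun x => massT ((S.res W).ρ x)
      (((orderOf (rs W χ) : ℝ) + 1) ^ AW W)⁻¹
    have p : (0 : ℝ) < (orderOf (rs W χ)).totient := by
      exact_mod_cast Nat.totient_pos.2 (hψ W).orderOf_pos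
    simp only [ht]
    refine le_of_mul_le_mul_left (e.le.trans ?_) p
    refine (mul_le_mul_of_nonneg_left (hg W h).2 (Nat.cast_nonneg _)).trans (le_of_eq ?_)
    ring
  obtain ⟨K, hK⟩ : ∃ K : Finset ℕ, K = (Cop N).filter fun j => ∀ u : Λ →ₗ[ℤ] ℤ, u ≠ 0 →
      S.ρ (χ ^ j) * ((N : ℝ) + 1) ^ Ac < (S.ref u).ρ (χ ^ j) := ⟨_, rfl⟩
  have hKc : (K.card : ℝ) ≤ C * (N : ℝ) ^ (ε' / 3) := by
    have := hC S.c N (K.image fun j => χ ^ j) hNp fun x hx => by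
      obtain ⟨j, hj, rfl⟩ := mem_image.1 hx
      rw [hK] at hj
      exact ⟨by rw [pow_right_comm, hN, pow_orderOf_eq_one, one_pow], (mem_filter.1 hj).2⟩
    rwa [card_image_of_injOn (pow_injOn_Iio_orderOf.mono fun j hj => ?_)] at this
    rw [hK, coe_filter] at hj
    exact hN ▸ mem_range.1 (mem_filter.1 hj.1).1
  have hs0 : 0 ≤ (N : ℝ) ^ (1 - ε') := by positivity
  have hterm : ∀ j ∈ Cop N, massT (S.ρ (χ ^ j)) (((N : ℝ) + 1) ^ (Ac + 𝒱.sup AW))⁻¹ ≤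
      (if j ∈ K then (N : ℝ) ^ (1 - ε') else 0) + ∑ W ∈ 𝒱, t W j := fun j hj => by
    split_ifs with hc
    · exact (massT_core hs0 (hsp' j hj) (inv_le_one_of_one_le₀ (one_le_pow₀ hN1))).trans
        (le_add_of_nonneg_right (sum_nonneg fun W h => ht0 W h j hj))
    rw [hK, mem_filter, not_and] at hc
    obtain ⟨u, hu⟩ := not_forall.1 (hc hj)
    obtain ⟨u0, hu⟩ := Classical.not_imp.1 hu
    obtain ⟨W, w1, w2, w3⟩ := h𝒲 _ (sat_ker u)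
    have hWV : W ∈ 𝒱 := (h𝒱 W).2 ⟨w1, fun e => u0 (LinearMap.ker_eq_top.1 (top_le_iff.1 (e ▸ w2))),
      (hG u u0).ref_of _ fun i _ k _ e => sub_eq_zero.1 (by
        rw [← map_sub]; exact w2 ((Submodule.Quotient.eq W).1 e))⟩
    rw [zero_add]
    refine le_trans ?_ (single_le_sum (f := fun W => t W j) (fun W h => ht0 W h j hj) hWV)
    have r0 : 0 < S.ρ (χ ^ j) := (Real.exp_pos _).trans_le (hsp' j hj)
    have r1 := hpos W hWV j hj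
    have r2 : (S.res W).ρ (rs W χ ^ j) ≤ S.ρ (χ ^ j) * ((N : ℝ) + 1) ^ Ac := by
      rw [← rs_pow, S.ρ_res W (char_norm hχ.pow)]
      refine (S.ρ_ref_le _ u (fun i a k b e => (Submodule.Quotient.eq W).2 (w3 i a k b ?_)) _).trans
        (not_lt.1 hu)
      rw [LinearMap.mem_ker, map_sub, e, sub_self]
    have r3 : ((orderOf (rs W χ) : ℝ) + 1) ^ AW W ≤ ((N : ℝ) + 1) ^ 𝒱.sup AW := by
      refine (pow_le_pow_left₀ (by positivity) ?_ _).trans (pow_le_pow_right₀ hN1 (le_sup hWV))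
      have := Nat.le_of_dvd hNp (hN ▸ rs_order W χ)
      exact add_le_add (by exact_mod_cast this) le_rfl
    rw [ht]
    refine massT_le r0 r1 ?_
    rw [div_eq_mul_inv, div_eq_mul_inv, ← mul_inv, ← mul_inv]
    refine inv_anti₀ (by positivity) ((mul_le_mul r3 r2 r1.le (by positivity)).trans (le_of_eq ?_))
    ring
  have hfin := sum_le_sum hterm
  rw [sum_add_distrib, sum_ite_mem, sum_const, nsmul_eq_mul, sum_comm] at hfin
  have c1 : ((Cop N ∩ K).card : ℝ) * (N : ℝ) ^ (1 - ε') ≤ ε / 2 * N.totient :=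
    (mul_le_mul_of_nonneg_right ((Nat.cast_le.2 (card_le_card inter_subset_right)).trans hKc)
      hs0).trans hb
  have c2 := sum_le_card_nsmul _ _ _ hts
  have c3 : 𝒱.card • (ε / 2 / (𝒱.card + 1) * N.totient) ≤ ε / 2 * N.totient := by
    rw [nsmul_eq_mul, ← mul_assoc]
    refine mul_le_mul_of_nonneg_right ?_ (Nat.cast_nonneg _)
    rw [← mul_div_assoc, div_le_iff₀ (by positivity)]
    nlinarith
  subst hN
  exact hfin.trans (by linarith)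

theorem sMass (h1 : SRel) (h2 : SExcl) (h3 : SSat) (h4 : SExt) : SMass := by
  have H : ∀ (n : ℕ) (Λ : Type) [AddCommGroup Λ] [Module.Free ℤ Λ] [Module.Finite ℤ Λ],
      finrank ℤ Λ = n → MassAt Λ := by
    intro n
    induction n using Nat.strong_induction_on with
    | _ n ih =>
      intro Λ _ _ _ hn
      refine mass_step h1 h3 fun S W hI hS hW hG ε hε => ?_
      have hr := ((h3 Λ S.ι S.I S.m).2 W hS).2.2.2 hW
      exact mass_good h2 (ih _ (hn ▸ hr) W rfl) _ (hI.res W) (h4 Λ S W hS hG) hε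
  exact fun Λ _ _ _ => H _ Λ rfl

end Pool.Agent.MP_c1891a_nt.G43
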