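import Pool.Agent.MP_c1891a_nt.G43.SpecA

/-
The Gauss norm is multiplicative.
-/

namespace Pool.Agent.MP_c1891a_nt.G43

open Finset MvPolynomial
open scoped NNReal

section

variable {K σ : Type} [NormedField K]

theorem tmul_le (p : MvPolynomial σ K) (α : σ →₀ ℕ) : ‖p.coeff α‖₊ ≤ gn p := by
  by_cases h : α ∈ p.support
  · exact le_sup (f := fun α => ‖p.coeff α‖₊) h
  · rw [notMem_support_iff.1 h, nnnorm_zero]; exact zero_le

theorem tmul_ex {p : MvPolynomial σ K} (hp : p ≠ 0) : ∃ α ∈ p.support, ‖p.coeff α‖₊ = gn p := by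
  obtain ⟨α, h1, h2⟩ := exists_mem_eq_sup p.support (support_nonempty.2 hp) fun α => ‖p.coeff α‖₊
  exact ⟨α, h1, h2.symm⟩

theorem tmul_gn [IsUltrametricDist K] (p q : MvPolynomial σ K) : gn (p * q) = gn p * gn q := by
  classical
  refine le_antisymm (Finset.sup_le fun α _ => ?_) ?_
  · rw [coeff_mul]
    refine IsUltrametricDist.nnnorm_sum_le_of_forall_le fun x _ => ?_
    rw [nnnorm_mul]
    exact mul_le_mul' (tmul_le p _) (tmul_le q _)
  by_cases hp : p = 0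
  · simp [hp, gn]
  by_cases hq : q = 0
  · simp [hq, gn]
  obtain ⟨α, hα, eα⟩ := tmul_ex hp
  obtain ⟨β, hβ, eβ⟩ := tmul_ex hq
  have p0 : 0 < gn p := eα ▸ nnnorm_pos.2 (mem_support_iff.1 hα)
  have q0 : 0 < gn q := eβ ▸ nnnorm_pos.2 (mem_support_iff.1 hβ)
  obtain ⟨a, ha, b, hb, hu⟩ := UniqueSums.uniqueAdd_of_nonempty
    (A := p.support.filter fun α => ‖p.coeff α‖₊ = gn p)
    (B := q.support.filter fun α => ‖q.coeff α‖₊ = gn q) ⟨α, mem_filter.2 ⟨hα, eα⟩⟩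
    ⟨β, mem_filter.2 ⟨hβ, eβ⟩⟩
  have hm : ‖p.coeff a * q.coeff b‖₊ = gn p * gn q := by
    rw [nnnorm_mul, (mem_filter.1 ha).2, (mem_filter.1 hb).2]
  have hr : ‖∑ x ∈ (antidiagonal (a + b)).erase (a, b), p.coeff x.1 * q.coeff x.2‖₊ <
      gn p * gn q := by
    refine (Finset.nnnorm_sum_le_sup_nnnorm _ _).trans_lt
      ((Finset.sup_lt_iff (mul_pos p0 q0)).2 fun x hx => ?_)
    obtain ⟨hx1, hx2⟩ := mem_erase.1 hx
    rw [nnnorm_mul]
    rcases (tmul_le p x.1).lt_or_eq with h1 | h1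
    · exact mul_lt_mul_of_lt_of_le_of_nonneg_of_pos h1 (tmul_le q _) zero_le q0
    rcases (tmul_le q x.2).lt_or_eq with h2 | h2
    · exact mul_lt_mul_of_le_of_lt_of_nonneg_of_pos h1.le h2 zero_le p0
    obtain ⟨e1, e2⟩ := hu
      (mem_filter.2 ⟨mem_support_iff.2 (nnnorm_pos.1 (h1 ▸ p0)), h1⟩)
      (mem_filter.2 ⟨mem_support_iff.2 (nnnorm_pos.1 (h2 ▸ q0)), h2⟩) (mem_antidiagonal.1 hx2)
    exact absurd (Prod.ext e1 e2) hx1
  refine le_trans ?_ (tmul_le (p * q) (a + b))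
  rw [coeff_mul, ← add_sum_erase _ _ (a := (a, b)) (mem_antidiagonal.2 rfl),
    IsUltrametricDist.nnnorm_add_eq_max_of_nnnorm_ne_nnnorm (by rw [hm]; exact hr.ne'), hm]
  exact le_max_left _ _

end

theorem sTMul : STMul := by
  intro K A _ _ _ _ d Y ⟨h1, h2⟩
  constructor
  · have := h1 1
    rw [map_one] at this
    rw [← coe_nnnorm, this]
    simp [gn]
  · intro a b
    refine h2.induction_on₂ (p := fun a b => ‖a * b‖ = ‖a‖ * ‖b‖)
      (isClosed_eq (by fun_prop) (by fun_prop)) (fun p q => ?_) a b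
    rw [← map_mul, ← coe_nnnorm, ← coe_nnnorm, ← coe_nnnorm, h1, h1, h1, tmul_gn, NNReal.coe_mul]

end Pool.Agent.MP_c1891a_nt.G43
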